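import Pool.Agent.W953.SR.DetHard
import Pool.Agent.W953.SR.Cmp
import Pool.Agent.W953.SP.Net

/-!
# Deterministic context-free languages: `log n - C sqrt (log n)` NOT gates are not enough for L

A computation in rounds asks tests without negations; every round depends on the answers of the
earlier rounds, and the `cost` is the maximum of the product of the numbers (number of tests of the
round) + 1, so that `t` tests one after the other (`t` NOT gates) have cost `2 ^ t`. The tests are
span programs over any fields, undirected switching networks (the monotone model of L) and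
comparator circuits.

There are a deterministic pushdown automaton `A` and, for every `n`, tags `t` of the `n` positions
and a set `D` of assignments of bits to the positions on which `A` is monotone, such that
computations in rounds of cost `M` and polynomial size do not agree with `A` on the elements of `D`,
as long as `M 2 ^ (C sqrt (log n)) ≤ n`; this also holds on the elements of `D` with between `k` and
`k + U` ones if `M 2 ^ (C sqrt (log n)) ≤ U ≤ n - k`.

The automaton evaluates a complete binary tree of height `h` with `4 ^ h` labels. The reversible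
pebble game on this tree needs more than `h` pebbles: with at most `h` pebbles on the tree some path
from the root to a leaf stays free. This is turned into a bound for the rank of matrices.
-/

set_option autoImplicit false

namespace Pool.Agent.Results.MP_9277c3_lc.NotsOnSlicesDCFL

open Pool.Agent.W953.SP Pool.Agent.W953.SR

/-- the tests: monotone span programs over any fields, monotone undirected switching networks,
monotone comparator circuits -/
inductive Test (I : Type) : Type 1
  | span (P : MSP I)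
  | net (N : Net I)
  | cmp (C : Cmp I)

/-- acceptance -/
def Test.Acc {I : Type} : Test I → (I → Bool) → Prop
  | .span P, x => P.Acc x
  | .net N, x => N.Acc x
  | .cmp C, x => C.val x = true

/-- the number of rows, labelled edges, wires -/
def Test.size {I : Type} : Test I → ℕ
  | .span P => P.size
  | .net N => N.size
  | .cmp C => C.wires

/-- the tests with their acceptance and size -/
def tests (I : Type) : Tests (Test I) I where
  acc := Test.Acc
  size := Test.size

/-- every computation in rounds of cost at most `M` in which the tests on every path have total size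
less than `s` disagrees with `f` on some input in `dom` -/
def Hard {I : Type} (f : (I → Bool) → Prop) (dom : (I → Bool) → Prop) (M s : ℕ) : Prop :=
  ∀ p : Prog (Test I), p.cost ≤ M → p.load (tests I) < s →
    ∃ x, dom x ∧ ¬ (p.Acc (tests I) x ↔ f x)

/-- the number of ones of an input -/
def ones {n : ℕ} (x : Fin n → Bool) : ℕ := (Finset.univ.filter (fun i => x i = true)).card

/-- the automaton accepts the word with the tags `t` and the bits `x` -/
def Word {Tag : Type} (A : Pool.Agent.H589R2.MNL.DPDA (Tag × Bool)) {n : ℕ} (t : Fin n → Tag)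
    (x : Fin n → Bool) : Prop :=
  A.Accepts (List.ofFn fun i => (t i, x i))

/-- `f` is monotone on `D` -/
def MonoOn {I : Type} (f : (I → Bool) → Prop) (D : Set (I → Bool)) : Prop :=
  ∀ x ∈ D, ∀ y ∈ D, x ≤ y → f x → f y

lemma tests_mono (I : Type) : Prog.Mono (tests I) := by
  intro P x y hxy h
  cases P with
  | span P => exact MSP.Acc.mono hxy h
  | net N => exact Pool.Agent.W953.SP.Net.Acc.mono hxy h
  | cmp C => exact C.val_mono hxy h

lemma tests_rank (I : Type) : RankTests (tests I) := by
  intro P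
  cases P with
  | span P =>
    refine ⟨P.F, inferInstance, fun X Y _ _ _ _ A α β U _ hU hβ m hm => ?_⟩
    exact P.rank_le A α β U hU hβ m hm
  | net N =>
    refine ⟨ℚ, inferInstance, fun X Y _ _ _ _ A α β U _ hU hβ m hm => ?_⟩
    exact (N.toMSP ℚ).rank_le A α β U (fun x hx => (N.toMSP_acc ℚ _).mpr (hU x hx))
      (fun y h => hβ y ((N.toMSP_acc ℚ _).mp h)) m hm
  | cmp C => exact wireTests_rank I C

/-- numbers -/
lemma numbers (c n : ℕ) (hn : 2 ≤ n) : ∃ h,
    9 * h + 4 ≤ 22 * (c + 1) * Nat.sqrt (Nat.log 2 n) ∧ n ^ c < 2 ^ (h ^ 2 + h) := by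
  obtain ⟨L, hL⟩ : ∃ L, L = Nat.log 2 n := ⟨_, rfl⟩
  obtain ⟨s, hs⟩ : ∃ s, s = Nat.sqrt L := ⟨_, rfl⟩
  have hL1 : 1 ≤ L := by
    rw [hL]
    exact Nat.log_pos (by norm_num) hn
  have hs1 : 1 ≤ s := by
    rw [hs]
    exact Nat.sqrt_pos.mpr hL1
  have hLs : L + 1 ≤ (s + 1) ^ 2 := by
    rw [hs]
    exact Nat.lt_succ_sqrt' L
  have hnL : n ≤ 2 ^ (L + 1) := by
    rw [hL]
    exact (Nat.lt_pow_succ_log_self (by norm_num) n).le
  refine ⟨(c + 1) * (s + 1), ?_, ?_⟩
  · rw [← hL, ← hs]
    have h1 : (c + 1) * (s + 1) ≤ (c + 1) * (2 * s) := Nat.mul_le_mul_left _ (by omega)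
    have h2 : s ≤ (c + 1) * s := Nat.le_mul_of_pos_left s (by omega)
    calc 9 * ((c + 1) * (s + 1)) + 4 ≤ 9 * ((c + 1) * (2 * s)) + 4 * ((c + 1) * s) := by omega
      _ = 22 * (c + 1) * s := by ring
  · calc n ^ c ≤ (2 ^ (L + 1)) ^ c := Nat.pow_le_pow_left hnL c
      _ = 2 ^ ((L + 1) * c) := by rw [← pow_mul]
      _ < 2 ^ (((c + 1) * (s + 1)) ^ 2 + (c + 1) * (s + 1)) := by
        apply Nat.pow_lt_pow_right (by norm_num)
        have h1 : (L + 1) * c ≤ (s + 1) ^ 2 * (c + 1) ^ 2 := by
          refine Nat.mul_le_mul hLs ?_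
          have : c + 1 ≤ (c + 1) ^ 2 := Nat.le_self_pow (by norm_num) _
          omega
        have h2 : 0 < (c + 1) * (s + 1) := Nat.mul_pos (by omega) (by omega)
        have h3 : ((c + 1) * (s + 1)) ^ 2 = (s + 1) ^ 2 * (c + 1) ^ 2 := by ring
        omega

/-- **A deterministic context-free language needs almost `log n` NOT gates in the monotone models of
L.** -/
theorem result : ∃ (Tag : Type) (_ : Fintype Tag) (A : Pool.Agent.H589R2.MNL.DPDA (Tag × Bool)),
    (∀ h M U n : ℕ, M * 2 ^ (9 * h + 4) ≤ U → U ≤ n →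
      ∃ (t : Fin n → Tag) (D : Set (Fin n → Bool)), MonoOn (Word A t) D ∧ ∀ k, k + U ≤ n →
        Hard (Word A t) (fun x => x ∈ D ∧ k ≤ ones x ∧ ones x ≤ k + U) M (2 ^ (h ^ 2 + h))) ∧
    ∀ c : ℕ, ∃ C : ℕ, ∀ M U n : ℕ, 2 ≤ n → M * 2 ^ (C * Nat.sqrt (Nat.log 2 n)) ≤ U → U ≤ n →
      ∃ (t : Fin n → Tag) (D : Set (Fin n → Bool)), MonoOn (Word A t) D ∧ ∀ k, k + U ≤ n →
        Hard (Word A t) (fun x => x ∈ D ∧ k ≤ ones x ∧ ones x ≤ k + U) M (n ^ c) := by
  have main : ∀ h M U n : ℕ, M * 2 ^ (9 * h + 4) ≤ U → U ≤ n →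
      ∃ (t : Fin n → Pool.Agent.H589R2.MNL.Tg) (D : Set (Fin n → Bool)),
        MonoOn (Word Pool.Agent.H589R2.MNL.mach3 t) D ∧ ∀ k, k + U ≤ n →
        Hard (Word Pool.Agent.H589R2.MNL.mach3 t)
          (fun x => x ∈ D ∧ k ≤ ones x ∧ ones x ≤ k + U) M (2 ^ (h ^ 2 + h)) := by
    intro h M U n hU hn
    obtain ⟨t, D, h1, h2⟩ := det_hard.{1} h M U n hU hn
    refine ⟨t, D, h1, fun k hk p hcost hload => ?_⟩
    obtain ⟨x, h3, h4, h5, h6⟩ := h2 _ (tests (Fin n)) (tests_rank _) (tests_mono _) k hk p
      hcost hload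
    exact ⟨x, ⟨h3, h4, h5⟩, h6⟩
  refine ⟨Pool.Agent.H589R2.MNL.Tg, inferInstance, Pool.Agent.H589R2.MNL.mach3, main, fun c => ?_⟩
  refine ⟨22 * (c + 1), fun M U n hn hM hU => ?_⟩
  obtain ⟨h, h1, h2⟩ := numbers c n hn
  obtain ⟨t, D, h3, h4⟩ := main h M U n
    (le_trans (Nat.mul_le_mul_left M (Nat.pow_le_pow_right (by norm_num) h1)) hM) hU
  exact ⟨t, D, h3, fun k hk p hcost hload => h4 k hk p hcost (by omega)⟩

end Pool.Agent.Results.MP_9277c3_lc.NotsOnSlicesDCFL
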