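import Pool.Agent.W997.CF.Pad
import Pool.Agent.W216.CFMEM
import Pool.Agent.W557.CFSIM
import Pool.Agent.W597.CFTRANS
import Pool.Agent.W382.CF.NUM

/-!
# Deterministic context-free languages and programs which read few positions

There is one language `A` over six letters, accepted by a real-time one-way deterministic pushdown
automaton (five states, three stack symbols), such that for every `δ > 0` and all large `m` there is
a set `F` of words of length `m` with the following properties.

* Membership of the words of `F` in `A` is decided by a branching program with `2 ^ O(log ^ 2 m)`
  states (space `O(log ^ 2 m)`, as in Cook's theorem) within `m ^ δ` steps.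
* With `2 ^ (ε log ^ 2 m)` states (space `ε log ^ 2 m`; logarithmic space is `O(log m)`) this is
  impossible: every deterministic branching program of this size which halts on `F`, and is right on
  a fraction of at least `1 / 2 + m ^ (-c)` of `F`, reads on average at least `m ^ (1 - δ)`
  different positions of the word.

So for deterministic machines which read few positions of the input Cook's bound `log ^ 2` for the
space of deterministic context-free languages is optimal up to a constant factor, although here
time `m ^ δ` is enough.

The words of `F` describe instances of tree evaluation: the values of the children of a node are on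
the stack when the table of the node arrives, which is written as a bracketed decision tree; the
automaton pops the values bit by bit on its way through the decision tree and pushes the entry.
-/

set_option autoImplicit false

namespace Pool.Agent.Results.MP_9277c3_lc.StackEvaluationFewReads

open Pool.Agent.W997.CF
open Pool.Agent.H561R2.CF (RDPDA)

/-- There is a language `A` over `Fin 6` of a real-time one-way deterministic pushdown automaton
such that for every `δ > 0` there are `ε, c > 0` such that for all large `m` there is a nonempty set
`F` of words of length `m` with: branching programs of log size `5 log ^ 2 m` decide membership of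
the words of `F` in `A` within time `m ^ δ`, but every branching program of log size at most
`ε log ^ 2 m` which halts on `F` and is right on a fraction of at least `1 / 2 + m ^ (-c)` of `F`
reads on average at least `m ^ (1 - δ)` different positions. -/
theorem result : ∃ (Q Γ : Type) (_ : Fintype Q) (_ : Fintype Γ) (M : RDPDA Q Γ (Fin 6)),
    ∀ δ : ℝ, 0 < δ → ∃ ε : ℝ, 0 < ε ∧ ∃ c : ℝ, 0 < c ∧ ∃ m₀ : ℕ, ∀ m : ℕ, m₀ ≤ m →
      ∃ F : Finset (Fin m → Fin 6), F.Nonempty ∧
        Decided M.language F (5 * Real.log m ^ 2) ((m : ℝ) ^ δ) ∧
        Hard M.language F (ε * Real.log m ^ 2) ((m : ℝ) ^ (-c)) ((m : ℝ) ^ (1 - δ)) :=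
  ⟨St, Sy, inferInstance, inferInstance, mach, fun δ hδ =>
    main pda2 Pool.Agent.W216.CFMEM.main Pool.Agent.W216.CFMEM.len Pool.Agent.W557.CFSIM.main
      Pool.Agent.W597.CFTRANS.main Pool.Agent.W382.CF.NUM.main δ hδ⟩

end Pool.Agent.Results.MP_9277c3_lc.StackEvaluationFewReads
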